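import Pool.Agent.K4H10.PR.Spec

namespace Pool.Agent.K4H10.PR
open scoped BigOperators Classical
open IntermediateField Polynomial

/-- the primitive root -/
noncomputable def zz (n : ℕ) : ℂ := Complex.exp (2 * Real.pi * Complex.I / n)

theorem zz_prim {n : ℕ} (hn : n ≠ 0) : IsPrimitiveRoot (zz n) n := Complex.isPrimitiveRoot_exp n hn

theorem zz_mul {c m : ℕ} (hc : c ≠ 0) (hm : m ≠ 0) : zz (c * m) ^ m = zz c := by
  unfold zz
  rw [← Complex.exp_nat_mul]
  congr 1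
  have h1 : (c : ℂ) ≠ 0 := Nat.cast_ne_zero.mpr hc
  have h2 : (m : ℂ) ≠ 0 := Nat.cast_ne_zero.mpr hm
  push_cast
  field_simp

/-- the homomorphism `ℚ(ζ) → ℂ` with `ζ ↦ ζ ^ k` -/
theorem exists_hom' {n k : ℕ} (hn : n ≠ 0) (hk : Nat.Coprime k n) :
    ∃ σ : (IntermediateField.adjoin ℚ {zz n}) →ₐ[ℚ] ℂ,
      ∀ x : (IntermediateField.adjoin ℚ {zz n}), (x : ℂ) ^ n = 1 → σ x = (x : ℂ) ^ k := by
  have hz := zz_prim hn
  have hint : IsIntegral ℚ (zz n) := (hz.isIntegral (Nat.pos_of_ne_zero hn)).tower_top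
  have hroot : zz n ^ k ∈ (minpoly ℚ (zz n)).aroots ℂ := by
    rw [← cyclotomic_eq_minpoly_rat hz (Nat.pos_of_ne_zero hn), mem_aroots]
    refine ⟨cyclotomic_ne_zero n ℚ, ?_⟩
    have h1 : IsPrimitiveRoot (zz n ^ k) n := hz.pow_of_coprime k hk
    have h2 := h1.isRoot_cyclotomic (Nat.pos_of_ne_zero hn)
    rw [← map_cyclotomic n (algebraMap ℚ ℂ)] at h2
    rw [IsRoot.def, eval_map] at h2
    exact h2
  set σ : (IntermediateField.adjoin ℚ {zz n}) →ₐ[ℚ] ℂ :=
    (algHomAdjoinIntegralEquiv ℚ hint).symm ⟨zz n ^ k, hroot⟩ with hσ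
  have hgen : σ (AdjoinSimple.gen ℚ (zz n)) = zz n ^ k :=
    algHomAdjoinIntegralEquiv_symm_apply_gen ℚ hint ⟨zz n ^ k, hroot⟩
  refine ⟨σ, ?_⟩
  intro x hx
  have : NeZero n := ⟨hn⟩
  obtain ⟨i, -, hi⟩ := hz.eq_pow_of_pow_eq_one hx
  have hxg : x = (AdjoinSimple.gen ℚ (zz n)) ^ i := by
    apply Subtype.ext
    rw [← hi]
    rfl
  rw [hxg, map_pow, hgen]
  show (zz n ^ k) ^ i = ((AdjoinSimple.gen ℚ (zz n) : ℂ) ^ i) ^ k
  rw [AdjoinSimple.coe_gen, ← pow_mul, ← pow_mul, mul_comm]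

/-- the homomorphism `cyc n → ℂ` with `ζ ↦ ζ ^ k` -/
theorem exists_hom {n k : ℕ} (hn : n ≠ 0) (hk : Nat.Coprime k n) :
    ∃ σ : cyc n →ₐ[ℚ] ℂ, ∀ x : cyc n, (x : ℂ) ^ n = 1 → σ x = (x : ℂ) ^ k :=
  exists_hom' hn hk

theorem gal : StGal := by
  intro p a N c hp ha hc hpc ι _ v ζ z hv hζ hsum
  -- c = p ^ b * c'
  obtain ⟨b, c', hc', hcc⟩ : ∃ b c' : ℕ, ¬ p ∣ c' ∧ c = p ^ b * c' :=
    Nat.exists_eq_pow_mul_and_not_dvd hc.ne' p hp.ne_one
  have hba : b ≤ a - 1 := by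
    by_contra hcon
    apply hpc
    rw [hcc]
    exact Dvd.dvd.mul_right (pow_dvd_pow p (by omega)) c'
  have hcop : Nat.Coprime c' (p ^ (N + a)) :=
    (Nat.Coprime.pow_right _ ((Nat.Prime.coprime_iff_not_dvd hp).mpr hc').symm)
  obtain ⟨k, hk1, hk2⟩ := Nat.chineseRemainder hcop 1 (1 + p ^ (a - 1))
  have hc0 : c ≠ 0 := hc.ne'
  have hp0 : p ≠ 0 := hp.ne_zero
  set m := p ^ (N + a) with hm
  have hm0 : m ≠ 0 := pow_ne_zero _ hp0
  have hn0 : c * m ≠ 0 := mul_ne_zero hc0 hm0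
  -- congruences of k
  have hkN : k ≡ 1 + p ^ (a - 1) [MOD p ^ N] := hk2.of_dvd (pow_dvd_pow p (by omega))
  have hkb : k ≡ 1 [MOD p ^ b] := by
    have h1 : k ≡ 1 + p ^ (a - 1) [MOD p ^ b] := hk2.of_dvd (pow_dvd_pow p (by omega))
    have h2 : 1 + p ^ (a - 1) ≡ 1 + 0 [MOD p ^ b] :=
      Nat.ModEq.add_left 1 ((Nat.modEq_zero_iff_dvd).mpr (pow_dvd_pow p hba))
    exact h1.trans (by simpa using h2)
  have hkp : k ≡ 1 [MOD p] := by
    have h1 : k ≡ 1 + p ^ (a - 1) [MOD p] := hk2.of_dvd (dvd_pow_self p (by omega))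
    have h2 : 1 + p ^ (a - 1) ≡ 1 + 0 [MOD p] :=
      Nat.ModEq.add_left 1 ((Nat.modEq_zero_iff_dvd).mpr (dvd_pow_self p (by omega)))
    exact h1.trans (by simpa using h2)
  have hkc : k ≡ 1 [MOD c] := by
    rw [hcc]
    refine (Nat.modEq_and_modEq_iff_modEq_mul ?_).mp ⟨hkb, hk1⟩
    exact Nat.Coprime.pow_left _ ((Nat.Prime.coprime_iff_not_dvd hp).mpr hc')
  have hkcop : Nat.Coprime k (c * m) := by
    apply Nat.Coprime.mul_right
    · have := hkc.gcd_eq
      rw [Nat.Coprime, this]; simp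
    · rw [hm]
      apply Nat.Coprime.pow_right
      have := hkp.gcd_eq
      rw [Nat.Coprime, this]; simp
  obtain ⟨σ, hσ⟩ := exists_hom hn0 hkcop
  have hle : cyc c ≤ cyc (c * m) := by
    unfold cyc
    rw [IntermediateField.adjoin_simple_le_iff]
    have h1 : zz c = zz (c * m) ^ m := (zz_mul hc0 hm0).symm
    have h2 : zz (c * m) ∈ IntermediateField.adjoin ℚ {zz (c * m)} :=
      IntermediateField.mem_adjoin_simple_self ℚ _
    have h3 : zz c ∈ IntermediateField.adjoin ℚ {zz (c * m)} := by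
      rw [h1]; exact pow_mem h2 m
    exact h3
  -- σ fixes cyc c
  have hfix : ∀ x : ℂ, ∀ hx : x ∈ cyc c, σ ⟨x, hle hx⟩ = x := by
    have hcomp : σ.comp (IntermediateField.inclusion hle) = (cyc c).val := by
      refine IntermediateField.algHom_ext_of_eq_adjoin ℚ (S := cyc c) (s := {zz c}) rfl ?_
      intro y hy
      rw [Set.mem_singleton_iff] at hy
      subst hy
      have hmem : zz c ∈ cyc c := IntermediateField.mem_adjoin_simple_self ℚ _
      have h1 : (zz c) ^ (c * m) = 1 := by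
        rw [pow_mul, (zz_prim hc0).pow_eq_one, one_pow]
      have h2 := hσ ⟨zz c, hle hmem⟩ h1
      have h3 : (zz c) ^ k = zz c := by
        have := (zz_prim hc0).pow_eq_one
        obtain h4 | h4 := le_total k 1
        · have h5 : k ≠ 0 ∨ c = 1 := by
            by_cases hc1 : c = 1
            · right; exact hc1
            · left
              intro h0
              rw [h0] at hkc
              have := (Nat.modEq_iff_dvd' (Nat.zero_le 1)).mp hkc
              simp at this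
              exact hc1 this
          rcases h5 with h5 | h5
          · have : k = 1 := by omega
            rw [this, pow_one]
          · rw [h5] at this ⊢
            rw [pow_one] at this
            rw [this, one_pow]
        · obtain ⟨q, hq⟩ := (Nat.modEq_iff_dvd' h4).mp hkc.symm
          have : k = 1 + c * q := by omega
          rw [this, pow_add, pow_one, pow_mul, (zz_prim hc0).pow_eq_one, one_pow, mul_one]
      show σ ⟨zz c, hle hmem⟩ = zz c
      rw [h2]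
      exact h3
    intro x hx
    have := congrArg (fun f : cyc c →ₐ[ℚ] ℂ => f ⟨x, hx⟩) hcomp
    exact this
  -- the ζ i
  have hζn : ∀ i, ζ i ^ (c * m) = 1 := by
    intro i
    have : c * m = p ^ N * (p ^ a * c) := by rw [hm, pow_add]; ring
    rw [this, pow_mul, hζ i, one_pow]
  have hζmem : ∀ i, ζ i ∈ cyc (c * m) := by
    intro i
    have : NeZero (c * m) := ⟨hn0⟩
    obtain ⟨j, -, hj⟩ := (zz_prim hn0).eq_pow_of_pow_eq_one (hζn i)
    rw [← hj]
    exact pow_mem (IntermediateField.mem_adjoin_simple_self ℚ _) j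
  have hζk : ∀ i, ζ i ^ k = ζ i ^ (1 + p ^ (a - 1)) := by
    intro i
    exact pow_eq_pow_of_modEq hkN (hζ i)
  have hs : σ (∑ i, (⟨v i, hle (hv i)⟩ : cyc (c * m)) * ⟨ζ i, hζmem i⟩) = (z : ℂ) := by
    have h1 : (∑ i, (⟨v i, hle (hv i)⟩ : cyc (c * m)) * ⟨ζ i, hζmem i⟩) =
        algebraMap ℚ (cyc (c * m)) z := by
      apply Subtype.ext
      rw [AddSubmonoidClass.coe_finsetSum]
      simpa using hsum
    rw [h1, AlgHom.commutes]
    simp
  rw [map_sum] at hs
  rw [← hs]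
  refine Finset.sum_congr rfl fun i _ => ?_
  rw [map_mul, hfix (v i) (hv i), hσ ⟨ζ i, hζmem i⟩ (hζn i)]
  show v i * ζ i ^ (1 + p ^ (a - 1)) = v i * ζ i ^ k
  rw [hζk i]

end Pool.Agent.K4H10.PR
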